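import Pool.Agent.H7.LP.Defs

/-!
# Groups with locally compact pieces: the examples (targets)
-/

set_option autoImplicit false

open Set Filter Topology TopologicalSpace

namespace Pool.Agent.H54.LP

open Pool.Agent.H7.LP Pool.Agent.H93.CP

/-- Locally compact Polish groups. -/
def T_X1 : Prop :=
  ∀ (G : Type) [Group G] [TopologicalSpace G] [IsTopologicalGroup G] [PolishSpace G]
    [LocallyCompactSpace G], Nonempty (LPD G)

/-- Non-archimedean Polish groups. -/
def T_X2 : Prop :=
  ∀ (G : Type) [Group G] [TopologicalSpace G] [IsTopologicalGroup G] [PolishSpace G],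
    NonArch G → Nonempty (LPD G)

/-- Countable products. -/
def T_X3 : Prop :=
  ∀ (G : ℕ → Type) [∀ n, Group (G n)] [∀ n, TopologicalSpace (G n)]
    [∀ n, IsTopologicalGroup (G n)] [∀ n, PolishSpace (G n)],
    (∀ n, Nonempty (LPD (G n))) → Nonempty (LPD (∀ n, G n))

/-- The wreath product of `L` by `Sym(ℕ)`: pairs of `f : ℕ → L` and a permutation. -/
@[ext] structure Wr (L : Type) where
  f : ℕ → L
  s : Equiv.Perm ℕ

/-- The topology of the wreath product: pointwise convergence of `f`, of `s` and of `s⁻¹`. -/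
instance Wr.top (L : Type) [TopologicalSpace L] : TopologicalSpace (Wr L) :=
  TopologicalSpace.induced
    (fun a : Wr L => (a.f, (a.s : ℕ → ℕ), (a.s.symm : ℕ → ℕ))) inferInstance

section WrGroup

variable {L : Type} [Group L]

instance Wr.instMul : Mul (Wr L) := ⟨fun a b => ⟨fun n => a.f n * b.f (a.s.symm n), a.s * b.s⟩⟩

instance Wr.instOne : One (Wr L) := ⟨⟨1, 1⟩⟩

instance Wr.instInv : Inv (Wr L) := ⟨fun a => ⟨fun n => (a.f (a.s n))⁻¹, a.s⁻¹⟩⟩

@[simp] theorem Wr.mul_f (a b : Wr L) (n : ℕ) : (a * b).f n = a.f n * b.f (a.s.symm n) := rfl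

@[simp] theorem Wr.mul_s (a b : Wr L) : (a * b).s = a.s * b.s := rfl

@[simp] theorem Wr.one_f (n : ℕ) : (1 : Wr L).f n = 1 := rfl

@[simp] theorem Wr.one_s : (1 : Wr L).s = 1 := rfl

@[simp] theorem Wr.inv_f (a : Wr L) (n : ℕ) : (a⁻¹).f n = (a.f (a.s n))⁻¹ := rfl

@[simp] theorem Wr.inv_s (a : Wr L) : (a⁻¹).s = a.s⁻¹ := rfl

instance Wr.instGroup : Group (Wr L) :=
  Group.ofLeftAxioms
    (fun a b d => by
      ext n
      · simp [mul_assoc, Equiv.Perm.mul_def]
      · simp [mul_assoc])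
    (fun a => by
      ext n
      · simp only [Wr.mul_f, Wr.one_f, Wr.one_s, one_mul]
        rfl
      · simp)
    (fun a => by
      ext n
      · simp [Equiv.Perm.inv_def]
      · simp)

end WrGroup

/-- Wreath products are Polish groups. -/
def T_X4 : Prop :=
  ∀ (L : Type) [Group L] [TopologicalSpace L] [IsTopologicalGroup L] [PolishSpace L],
    IsTopologicalGroup (Wr L) ∧ PolishSpace (Wr L)

/-- Wreath products with locally compact pieces. -/
def T_X5 : Prop :=
  ∀ (L : Type) [Group L] [TopologicalSpace L] [IsTopologicalGroup L] [PolishSpace L]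
    [LocallyCompactSpace L], Nonempty (LPD (Wr L))

/-- The topology of the isometry group: pointwise convergence. -/
instance isoTop (X : Type) [MetricSpace X] : TopologicalSpace (X ≃ᵢ X) :=
  TopologicalSpace.induced (fun g : X ≃ᵢ X => (g : X → X)) inferInstance

/-- Isometry groups of complete separable metric spaces are Polish groups; compact sets. -/
def T_X6 : Prop :=
  ∀ (X : Type) [MetricSpace X] [CompleteSpace X] [SeparableSpace X],
    IsTopologicalGroup (X ≃ᵢ X) ∧ PolishSpace (X ≃ᵢ X) ∧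
      ∀ S : Set (X ≃ᵢ X), IsClosed S → (∀ g ∈ S, g⁻¹ ∈ S) →
        (∀ x : X, ∃ K : Set X, IsCompact K ∧ ∀ g ∈ S, g x ∈ K) → IsCompact S

/-- Small compact balls and chains: the isometry group has locally compact pieces. -/
def T_X7 : Prop :=
  ∀ (Y : Type) [MetricSpace Y] [CompleteSpace Y] [SeparableSpace Y],
    (∀ x y : Y, dist x y ≤ 1 ∨ dist x y = 2) →
    (∀ x y z : Y, dist x y ≤ 1 → dist y z ≤ 1 → dist x z ≤ 1) →
    (∀ x : Y, ∃ r : ℝ, 0 < r ∧ IsCompact (Metric.closedBall x r)) →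
    (∀ x y : Y, dist x y ≤ 1 → Relation.ReflTransGen
      (fun a b : Y => ∃ r : ℝ, dist a b < r ∧ IsCompact (Metric.closedBall a r)) x y) →
    Nonempty (LPD (Y ≃ᵢ Y))

/-- The new metric. -/
def T_X8 : Prop :=
  ∀ (X : Type) [MetricSpace X] [CompleteSpace X] [SeparableSpace X] [LocallyCompactSpace X],
    ∃ (Y : Type) (_ : MetricSpace Y) (_ : CompleteSpace Y) (_ : SeparableSpace Y) (e : X ≃ₜ Y),
      (∀ x y : Y, dist x y ≤ 1 ∨ dist x y = 2) ∧
      (∀ x y z : Y, dist x y ≤ 1 → dist y z ≤ 1 → dist x z ≤ 1) ∧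
      (∀ x : Y, ∃ r : ℝ, 0 < r ∧ IsCompact (Metric.closedBall x r)) ∧
      (∀ x y : Y, dist x y ≤ 1 → Relation.ReflTransGen
        (fun a b : Y => ∃ r : ℝ, dist a b < r ∧ IsCompact (Metric.closedBall a r)) x y) ∧
      (∀ (g : X ≃ᵢ X) (x y : X), dist (e (g x)) (e (g y)) = dist (e x) (e y))

/-- Isometry groups of locally compact spaces are closed subgroups of groups with locally compact
pieces. -/
def T_X9 : Prop :=
  ∀ (X : Type) [MetricSpace X] [CompleteSpace X] [SeparableSpace X] [LocallyCompactSpace X],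
    ∃ (G : Type) (_ : Group G) (_ : TopologicalSpace G) (_ : IsTopologicalGroup G)
      (_ : PolishSpace G) (φ : (X ≃ᵢ X) →* G), Nonempty (LPD G) ∧ Topology.IsClosedEmbedding φ

end Pool.Agent.H54.LP
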