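import Pool.Agent.H54.LP.Targets

set_option autoImplicit false

open Set Filter Topology TopologicalSpace

namespace Pool.Agent.H54.LP

open Pool.Agent.H7.LP Pool.Agent.H93.CP

theorem pf_X1 : T_X1 := by
  intro G _ _ _ _ _
  obtain ⟨C, hC, hC1⟩ := exists_compact_mem_nhds (1 : G)
  refine ⟨{ H := fun _ => ⊤, R := fun _ => ⊥, piece := fun k => ⟨?_, ?_, ?_, ?_, ?_⟩,
            antH := fun k => le_rfl, antR := fun k => le_rfl, small := ?_, conj := ?_ }⟩
  · simp
  · simp
  · exact bot_le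
  · intro h _ r hr
    rw [Subgroup.mem_bot] at hr ⊢
    rw [hr]
    simp
  · refine ⟨C, hC, Filter.mem_of_superset hC1 ?_⟩
    intro g hg
    exact ⟨g, hg, by simp⟩
  · intro U hU
    refine ⟨0, fun r hr => ?_⟩
    rw [Subgroup.mem_bot] at hr
    rw [hr]
    exact mem_of_mem_nhds hU
  · intro g k
    refine ⟨0, fun h _ => Subgroup.mem_top _, fun r hr => ?_⟩
    rw [Subgroup.mem_bot] at hr ⊢
    rw [hr]
    simp

theorem pf_X2 : T_X2 := by
  intro G _ _ _ _ hG
  obtain ⟨B, hB, hanti⟩ := (𝓝 (1 : G)).exists_antitone_basis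
  have h1 : ∀ V : Subgroup G, IsOpen (V : Set G) → (V : Set G) ∈ 𝓝 (1 : G) :=
    fun V hV => hV.mem_nhds V.one_mem
  choose! W hWo hWs using hG
  -- the decreasing intersections
  let V : ℕ → Subgroup G := fun k => ⨅ i ∈ Finset.range (k + 1), W (B i)
  have hVmem : ∀ k g, g ∈ V k ↔ ∀ i ≤ k, g ∈ W (B i) := by
    intro k g
    simp only [V, Subgroup.mem_iInf, Finset.mem_range]
    exact ⟨fun h i hi => h i (by omega), fun h i hi => h i (by omega)⟩
  have hBn : ∀ i, B i ∈ 𝓝 (1 : G) := fun i => hB.mem_of_mem trivial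
  have hVo : ∀ k, IsOpen (V k : Set G) := by
    intro k
    have h2 : (V k : Set G) = ⋂ i ∈ Finset.range (k + 1), (W (B i) : Set G) := by
      ext g
      simp only [SetLike.mem_coe, hVmem, mem_iInter, Finset.mem_range]
      exact ⟨fun h i hi => h i (by omega), fun h i hi => h i (by omega)⟩
    rw [h2]
    exact isOpen_biInter_finset fun i _ => hWo (B i) (hBn i)
  have hsm : ∀ U ∈ 𝓝 (1 : G), ∃ k, ∀ r ∈ V k, r ∈ U := by
    intro U hU
    obtain ⟨k, -, hk⟩ := hB.mem_iff.1 hU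
    exact ⟨k, fun r hr => hk (hWs (B k) (hBn k) ((hVmem k r).1 hr k le_rfl))⟩
  refine ⟨{ H := V, R := V, piece := fun k => ⟨hVo k, ?_, le_rfl, ?_, ?_⟩,
            antH := ?_, antR := ?_, small := hsm, conj := ?_ }⟩
  · exact (V k).isClosed_of_isOpen (hVo k)
  · intro h hh r hr
    exact (V k).mul_mem ((V k).mul_mem hh hr) ((V k).inv_mem hh)
  · refine ⟨{1}, isCompact_singleton, Filter.mem_of_superset (h1 _ (hVo k)) ?_⟩
    intro g hg
    exact ⟨1, rfl, by simpa using hg⟩
  · intro k g hg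
    rw [hVmem] at hg ⊢
    exact fun i hi => hg i (by omega)
  · intro k g hg
    rw [hVmem] at hg ⊢
    exact fun i hi => hg i (by omega)
  · intro g k
    have h3 : (fun h : G => g * h * g⁻¹) ⁻¹' (V k : Set G) ∈ 𝓝 (1 : G) := by
      have h4 : Continuous (fun h : G => g * h * g⁻¹) := by fun_prop
      refine h4.continuousAt.preimage_mem_nhds ?_
      simpa using h1 _ (hVo k)
    obtain ⟨l, hl⟩ := hsm _ h3
    exact ⟨l, fun h hh => hl h hh, fun h hh => hl h hh⟩

end Pool.Agent.H54.LP
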