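import Pool.Agent.H54.LP.Targets

set_option autoImplicit false

open Set Filter Topology TopologicalSpace

namespace Pool.Agent.H54.LP

open Pool.Agent.H7.LP Pool.Agent.H93.CP

theorem LPD.antH' {G : Type} [Group G] [TopologicalSpace G] (L : LPD G) {k l : ℕ} (h : k ≤ l) :
    L.H l ≤ L.H k := by
  induction h with
  | refl => exact le_rfl
  | step _ ih => exact (L.antH _).trans ih

theorem LPD.antR' {G : Type} [Group G] [TopologicalSpace G] (L : LPD G) {k l : ℕ} (h : k ≤ l) :
    L.R l ≤ L.R k := by
  induction h with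
  | refl => exact le_rfl
  | step _ ih => exact (L.antR _).trans ih

/-- the subgroup of the product with conditions on the first coordinates -/
def prS {G : ℕ → Type} [∀ n, Group (G n)] (A : ∀ n, Subgroup (G n)) (k : ℕ) :
    Subgroup (∀ n, G n) where
  carrier := {x | ∀ n < k, x n ∈ A n}
  mul_mem' := fun ha hb n hn => (A n).mul_mem (ha n hn) (hb n hn)
  one_mem' := fun n _ => (A n).one_mem
  inv_mem' := fun ha n hn => (A n).inv_mem (ha n hn)

theorem mem_prS {G : ℕ → Type} [∀ n, Group (G n)] {A : ∀ n, Subgroup (G n)} {k : ℕ}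
    {x : ∀ n, G n} : x ∈ prS A k ↔ ∀ n < k, x n ∈ A n := Iff.rfl

theorem pf_X3 : T_X3 := by
  intro G _ _ _ _ hG
  have L : ∀ n, LPD (G n) := fun n => (hG n).some
  refine ⟨{ H := fun k => prS (fun n => (L n).H k) k, R := fun k => prS (fun n => (L n).R k) k,
            piece := fun k => ⟨?_, ?_, ?_, ?_, ?_⟩, antH := ?_, antR := ?_, small := ?_,
            conj := ?_ }⟩
  · have h1 : ((prS (fun n => (L n).H k) k : Subgroup (∀ n, G n)) : Set (∀ n, G n))
        = ⋂ n ∈ Finset.range k, (fun x : ∀ n, G n => x n) ⁻¹' ((L n).H k : Set (G n)) := by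
      ext x
      simp [mem_prS]
    rw [h1]
    exact isOpen_biInter_finset fun n _ => ((L n).piece k).op.preimage (continuous_apply n)
  · have h1 : ((prS (fun n => (L n).R k) k : Subgroup (∀ n, G n)) : Set (∀ n, G n))
        = ⋂ n ∈ Finset.range k, (fun x : ∀ n, G n => x n) ⁻¹' ((L n).R k : Set (G n)) := by
      ext x
      simp [mem_prS]
    rw [h1]
    exact isClosed_biInter fun n _ => ((L n).piece k).cl.preimage (continuous_apply n)
  · intro x hx n hn
    exact ((L n).piece k).le (hx n hn)
  · intro h hh r hr n hn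
    exact ((L n).piece k).nor (h n) (hh n hn) (r n) (hr n hn)
  · choose C hC hCn using fun n => ((L n).piece k).lc
    refine ⟨Set.pi univ (fun n => if n < k then C n else {1}), ?_, ?_⟩
    · refine isCompact_univ_pi fun n => ?_
      by_cases hn : n < k
      · simpa [hn] using hC n
      · simp [hn]
    · have h2 : (⋂ n ∈ Finset.range k, (fun x : ∀ n, G n => x n) ⁻¹'
          {g : G n | ∃ c ∈ C n, c⁻¹ * g ∈ (L n).R k}) ∈ 𝓝 (1 : ∀ n, G n) := by
        rw [Filter.biInter_finset_mem]
        intro n _
        exact (continuous_apply n).continuousAt.preimage_mem_nhds (hCn n)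
      refine Filter.mem_of_superset h2 ?_
      intro g hg
      simp only [mem_iInter, Finset.mem_range, mem_preimage, mem_setOf_eq] at hg
      choose! c hc using hg
      refine ⟨fun n => if n < k then c n else 1, ?_, ?_⟩
      · intro n _
        by_cases hn : n < k
        · simpa [hn] using (hc n hn).1
        · simp [hn]
      · intro n hn
        have := (hc n hn).2
        simpa [hn] using this
  · intro k x hx n hn
    exact (L n).antH k (hx n (by omega))
  · intro k x hx n hn
    exact (L n).antR k (hx n (by omega))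
  · intro U hU
    rw [nhds_pi, Filter.mem_pi] at hU
    obtain ⟨F, hF, t, ht, htU⟩ := hU
    choose l hl using fun n => (L n).small (t n) (ht n)
    obtain ⟨b, hb⟩ := hF.bddAbove
    have hfin : (F : Set ℕ).Finite := hF
    let k : ℕ := max (b + 1) (hF.toFinset.sup l)
    refine ⟨k, fun r hr => htU ?_⟩
    intro n hn
    have h1 : n < k := lt_of_lt_of_le (Nat.lt_succ_of_le (hb hn)) (le_max_left _ _)
    have h2 : l n ≤ k := le_trans (Finset.le_sup (f := l) (by simpa using hn)) (le_max_right _ _)
    exact hl n (r n) (LPD.antR' (L n) h2 (hr n h1))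
  · intro g k
    choose l hl1 hl2 using fun n => (L n).conj (g n) k
    let m : ℕ := max k ((Finset.range k).sup l)
    have hm : ∀ n < k, l n ≤ m := fun n hn =>
      le_trans (Finset.le_sup (f := l) (by simpa using hn)) (le_max_right _ _)
    refine ⟨m, fun h hh n hn => ?_, fun r hr n hn => ?_⟩
    · exact hl1 n (h n) (LPD.antH' (L n) (hm n hn) (hh n (lt_of_lt_of_le hn (le_max_left _ _))))
    · exact hl2 n (r n) (LPD.antR' (L n) (hm n hn) (hr n (lt_of_lt_of_le hn (le_max_left _ _))))

end Pool.Agent.H54.LP
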