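import Pool.Agent.H54.LP.Targets

set_option autoImplicit false

open Set Filter Topology TopologicalSpace

namespace Pool.Agent.H54.LP

open Pool.Agent.H7.LP Pool.Agent.H93.CP

theorem Wr.continuous_iff {Z L : Type} [TopologicalSpace Z] [TopologicalSpace L] (F : Z → Wr L) :
    Continuous F ↔ (∀ n, Continuous fun z => (F z).f n) ∧ (∀ n, Continuous fun z => (F z).s n) ∧
      (∀ n, Continuous fun z => (F z).s.symm n) := by
  rw [continuous_induced_rng]
  simp only [Function.comp_def, continuous_prodMk, continuous_pi_iff]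

theorem cont_ev {M : Type} [TopologicalSpace M] :
    Continuous (fun p : (ℕ → M) × ℕ => p.1 p.2) :=
  continuous_prod_of_discrete_right.2 fun n => continuous_apply n

theorem cont_ev' {Z M : Type} [TopologicalSpace Z] [TopologicalSpace M] {F : Z → ℕ → M}
    {m : Z → ℕ} (hF : Continuous F) (hm : Continuous m) : Continuous fun z => F z (m z) :=
  cont_ev.comp (hF.prodMk hm)

theorem Wr.cont_f {L : Type} [TopologicalSpace L] : Continuous (fun a : Wr L => a.f) :=
  continuous_pi ((Wr.continuous_iff (fun a : Wr L => a)).1 continuous_id).1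

theorem Wr.cont_s {L : Type} [TopologicalSpace L] :
    Continuous (fun a : Wr L => (a.s : ℕ → ℕ)) :=
  continuous_pi ((Wr.continuous_iff (fun a : Wr L => a)).1 continuous_id).2.1

theorem Wr.cont_i {L : Type} [TopologicalSpace L] :
    Continuous (fun a : Wr L => (a.s.symm : ℕ → ℕ)) :=
  continuous_pi ((Wr.continuous_iff (fun a : Wr L => a)).1 continuous_id).2.2

theorem pf_X4 : T_X4 := by
  intro L _ _ _ _
  have hgrp : IsTopologicalGroup (Wr L) := by
    have hm : Continuous fun p : Wr L × Wr L => p.1 * p.2 := by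
      rw [Wr.continuous_iff]
      refine ⟨fun n => ?_, fun n => ?_, fun n => ?_⟩
      · have h1 : Continuous fun p : Wr L × Wr L => p.1.f n :=
          (continuous_apply n).comp (Wr.cont_f.comp continuous_fst)
        have h2 : Continuous fun p : Wr L × Wr L => p.2.f (p.1.s.symm n) :=
          cont_ev' (Wr.cont_f.comp continuous_snd)
            ((continuous_apply n).comp (Wr.cont_i.comp continuous_fst))
        exact h1.mul h2
      · exact cont_ev' (F := fun p : Wr L × Wr L => (p.1.s : ℕ → ℕ))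
          (m := fun p => p.2.s n) (Wr.cont_s.comp continuous_fst)
          ((continuous_apply n).comp (Wr.cont_s.comp continuous_snd))
      · exact cont_ev' (F := fun p : Wr L × Wr L => (p.2.s.symm : ℕ → ℕ))
          (m := fun p => p.1.s.symm n) (Wr.cont_i.comp continuous_snd)
          ((continuous_apply n).comp (Wr.cont_i.comp continuous_fst))
    have hi : Continuous fun a : Wr L => a⁻¹ := by
      rw [Wr.continuous_iff]
      refine ⟨fun n => ?_, fun n => ?_, fun n => ?_⟩
      · have h2 : Continuous fun a : Wr L => a.f (a.s n) :=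
          cont_ev' Wr.cont_f ((continuous_apply n).comp Wr.cont_s)
        exact h2.inv
      · exact (continuous_apply n).comp Wr.cont_i
      · exact (continuous_apply n).comp Wr.cont_s
    exact { continuous_mul := hm, continuous_inv := hi }
  refine ⟨hgrp, ?_⟩
  let Φ : Wr L → (ℕ → L) × (ℕ → ℕ) × (ℕ → ℕ) := fun a => (a.f, (a.s : ℕ → ℕ), (a.s.symm : ℕ → ℕ))
  have hΦ : Topology.IsClosedEmbedding Φ := by
    refine ⟨⟨⟨rfl⟩, ?_⟩, ?_⟩
    · intro a b hab
      have h1 : a.f = b.f := congrArg Prod.fst hab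
      have h2 : (a.s : ℕ → ℕ) = b.s := congrArg (fun p => p.2.1) hab
      exact Wr.ext h1 (DFunLike.coe_injective h2)
    · have h1 : range Φ = {p : (ℕ → L) × (ℕ → ℕ) × (ℕ → ℕ) |
          (∀ n, p.2.1 (p.2.2 n) = n) ∧ ∀ n, p.2.2 (p.2.1 n) = n} := by
        ext p
        constructor
        · rintro ⟨a, rfl⟩
          exact ⟨fun n => a.s.apply_symm_apply n, fun n => a.s.symm_apply_apply n⟩
        · rintro ⟨h1, h2⟩
          exact ⟨⟨p.1, ⟨p.2.1, p.2.2, h2, h1⟩⟩, rfl⟩
      rw [h1]
      have h2 : {p : (ℕ → L) × (ℕ → ℕ) × (ℕ → ℕ) |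
          (∀ n, p.2.1 (p.2.2 n) = n) ∧ ∀ n, p.2.2 (p.2.1 n) = n} =
          (⋂ n, {p : (ℕ → L) × (ℕ → ℕ) × (ℕ → ℕ) | p.2.1 (p.2.2 n) = n}) ∩
            ⋂ n, {p : (ℕ → L) × (ℕ → ℕ) × (ℕ → ℕ) | p.2.2 (p.2.1 n) = n} := by
        ext p
        simp
      rw [h2]
      refine (isClosed_iInter fun n => ?_).inter (isClosed_iInter fun n => ?_)
      · exact isClosed_eq (cont_ev' (by fun_prop) (by fun_prop)) continuous_const
      · exact isClosed_eq (cont_ev' (by fun_prop) (by fun_prop)) continuous_const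
  exact hΦ.polishSpace

end Pool.Agent.H54.LP
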