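import Pool.Agent.H54.LP.X4

set_option autoImplicit false

open Set Filter Topology TopologicalSpace

namespace Pool.Agent.H54.LP

open Pool.Agent.H7.LP Pool.Agent.H93.CP

theorem symm_fix {s : Equiv.Perm ℕ} {n : ℕ} (h : s n = n) : s.symm n = n := by
  rw [Equiv.symm_apply_eq]
  exact h.symm

section

variable {L : Type} [Group L]

/-- the permutation fixes the first `k` coordinates -/
def WH (L : Type) [Group L] (k : ℕ) : Subgroup (Wr L) where
  carrier := {a | ∀ n < k, a.s n = n}
  mul_mem' := by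
    intro a b ha hb n hn
    show a.s (b.s n) = n
    rw [hb n hn, ha n hn]
  one_mem' := fun n _ => rfl
  inv_mem' := by
    intro a ha n hn
    exact symm_fix (ha n hn)

/-- moreover `f` is trivial there -/
def WR (L : Type) [Group L] (k : ℕ) : Subgroup (Wr L) where
  carrier := {a | ∀ n < k, a.s n = n ∧ a.f n = 1}
  mul_mem' := by
    intro a b ha hb n hn
    refine ⟨?_, ?_⟩
    · show a.s (b.s n) = n
      rw [(hb n hn).1, (ha n hn).1]
    · show a.f n * b.f (a.s.symm n) = 1
      rw [symm_fix (ha n hn).1, (ha n hn).2, (hb n hn).2, one_mul]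
  one_mem' := fun n _ => ⟨rfl, rfl⟩
  inv_mem' := by
    intro a ha n hn
    refine ⟨symm_fix (ha n hn).1, ?_⟩
    show (a.f (a.s n))⁻¹ = 1
    rw [(ha n hn).1, (ha n hn).2, inv_one]

theorem mem_WH {k : ℕ} {a : Wr L} : a ∈ WH L k ↔ ∀ n < k, a.s n = n := Iff.rfl

theorem mem_WR {k : ℕ} {a : Wr L} : a ∈ WR L k ↔ ∀ n < k, a.s n = n ∧ a.f n = 1 := Iff.rfl

end

theorem pf_X5 : T_X5 := by
  intro L _ _ _ _ _
  have hgrp := (pf_X4 L).1
  obtain ⟨Q, hQ, hQ1⟩ := exists_compact_mem_nhds (1 : L)
  have cs : ∀ n : ℕ, Continuous fun a : Wr L => a.s n :=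
    fun n => (continuous_apply n).comp Wr.cont_s
  have cf : ∀ n : ℕ, Continuous fun a : Wr L => a.f n :=
    fun n => (continuous_apply n).comp Wr.cont_f
  refine ⟨{ H := WH L, R := WR L, piece := fun k => ⟨?_, ?_, ?_, ?_, ?_⟩, antH := ?_,
            antR := ?_, small := ?_, conj := ?_ }⟩
  · have h1 : (WH L k : Set (Wr L)) = ⋂ n ∈ Finset.range k, {a : Wr L | a.s n = n} := by
      ext a
      simp [mem_WH]
    rw [h1]
    exact isOpen_biInter_finset fun n _ => (isOpen_discrete ({n} : Set ℕ)).preimage (cs n)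
  · have h1 : (WR L k : Set (Wr L)) =
        ⋂ n ∈ Finset.range k, ({a : Wr L | a.s n = n} ∩ {a : Wr L | a.f n = 1}) := by
      ext a
      simp [mem_WR]
    rw [h1]
    exact isClosed_biInter fun n _ => (isClosed_eq (cs n) continuous_const).inter
      (isClosed_eq (cf n) continuous_const)
  · exact fun a ha n hn => (ha n hn).1
  · intro h hh r hr n hn
    refine ⟨?_, ?_⟩
    · show h.s (r.s (h.s.symm n)) = n
      rw [symm_fix (hh n hn), (hr n hn).1, hh n hn]
    · have e1 : r.s.symm n = n := symm_fix (hr n hn).1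
      have e2 : h.s.symm n = n := symm_fix (hh n hn)
      show h.f n * r.f (h.s.symm n) * (h.f (h.s ((h.s * r.s).symm n)))⁻¹ = 1
      have e3 : (h.s * r.s).symm n = n := by
        apply symm_fix
        show h.s (r.s n) = n
        rw [(hr n hn).1, hh n hn]
      rw [e3, hh n hn, e2, (hr n hn).2]
      simp
  · let ι : (ℕ → L) → Wr L := fun f => ⟨f, 1⟩
    have hι : Continuous ι := by
      rw [Wr.continuous_iff]
      exact ⟨fun n => continuous_apply n, fun n => continuous_const, fun n => continuous_const⟩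
    refine ⟨ι '' Set.pi univ (fun n => if n < k then Q else {1}), ?_, ?_⟩
    · refine IsCompact.image (isCompact_univ_pi fun n => ?_) hι
      by_cases hn : n < k
      · simpa [hn] using hQ
      · simp [hn]
    · have h2 : (⋂ n ∈ Finset.range k, ({a : Wr L | a.s n = n} ∩ {a : Wr L | a.f n ∈ Q}))
          ∈ 𝓝 (1 : Wr L) := by
        rw [Filter.biInter_finset_mem]
        intro n _
        refine Filter.inter_mem ?_ ?_
        · exact ((isOpen_discrete ({n} : Set ℕ)).preimage (cs n)).mem_nhds rfl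
        · exact (cf n).continuousAt.preimage_mem_nhds hQ1
      refine Filter.mem_of_superset h2 ?_
      intro g hg
      simp only [mem_iInter, Finset.mem_range] at hg
      refine ⟨ι (fun n => if n < k then g.f n else 1), ⟨_, ?_, rfl⟩, ?_⟩
      · intro n _
        by_cases hn : n < k
        · simpa [hn] using (hg n hn).2
        · simp [hn]
      · intro n hn
        refine ⟨?_, ?_⟩
        · exact (hg n hn).1
        · show ((if n < k then g.f n else 1))⁻¹ * g.f n = 1
          simp [hn]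
  · exact fun k a ha n hn => ha n (by omega)
  · exact fun k a ha n hn => ha n (by omega)
  · intro U hU
    rw [nhds_induced, Filter.mem_comap] at hU
    obtain ⟨T, hT, hTU⟩ := hU
    rw [nhds_prod_eq, nhds_prod_eq, Filter.mem_prod_iff] at hT
    obtain ⟨T1, hT1, T2, hT2, h12⟩ := hT
    rw [Filter.mem_prod_iff] at hT2
    obtain ⟨T3, hT3, T4, hT4, h34⟩ := hT2
    rw [nhds_pi, Filter.mem_pi] at hT1 hT3 hT4
    obtain ⟨F1, hF1, t1, ht1, htU1⟩ := hT1
    obtain ⟨F3, hF3, t3, ht3, htU3⟩ := hT3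
    obtain ⟨F4, hF4, t4, ht4, htU4⟩ := hT4
    obtain ⟨b1, hb1⟩ := hF1.bddAbove
    obtain ⟨b3, hb3⟩ := hF3.bddAbove
    obtain ⟨b4, hb4⟩ := hF4.bddAbove
    refine ⟨max b1 (max b3 b4) + 1, fun r hr => hTU (h12 ⟨htU1 ?_, h34 ⟨htU3 ?_, htU4 ?_⟩⟩)⟩
    · intro n hn
      have h1 : n < max b1 (max b3 b4) + 1 :=
        Nat.lt_succ_of_le ((hb1 hn).trans (le_max_left _ _))
      show r.f n ∈ t1 n
      rw [(hr n h1).2]
      exact mem_of_mem_nhds (ht1 n)
    · intro n hn
      have h1 : n < max b1 (max b3 b4) + 1 :=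
        Nat.lt_succ_of_le ((hb3 hn).trans ((le_max_left _ _).trans (le_max_right _ _)))
      show r.s n ∈ t3 n
      rw [(hr n h1).1]
      exact mem_of_mem_nhds (ht3 n)
    · intro n hn
      have h1 : n < max b1 (max b3 b4) + 1 :=
        Nat.lt_succ_of_le ((hb4 hn).trans ((le_max_right _ _).trans (le_max_right _ _)))
      show r.s.symm n ∈ t4 n
      rw [symm_fix (hr n h1).1]
      exact mem_of_mem_nhds (ht4 n)
  · intro g k
    let l : ℕ := (Finset.range k).sup (fun n => g.s.symm n) + 1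
    have hl : ∀ n < k, g.s.symm n < l := fun n hn =>
      Nat.lt_succ_of_le (Finset.le_sup (f := fun n => g.s.symm n) (by simpa using hn))
    refine ⟨l, fun h hh n hn => ?_, fun r hr n hn => ⟨?_, ?_⟩⟩
    · show g.s (h.s (g.s.symm n)) = n
      rw [hh _ (hl n hn), Equiv.apply_symm_apply]
    · show g.s (r.s (g.s.symm n)) = n
      rw [(hr _ (hl n hn)).1, Equiv.apply_symm_apply]
    · have e3 : (g.s * r.s).symm n = g.s.symm n := by
        show r.s.symm (g.s.symm n) = g.s.symm n
        exact symm_fix (hr _ (hl n hn)).1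
      show g.f n * r.f (g.s.symm n) * (g.f (g.s ((g.s * r.s).symm n)))⁻¹ = 1
      rw [e3, (hr _ (hl n hn)).2, Equiv.apply_symm_apply]
      simp

end Pool.Agent.H54.LP
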