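import Pool.Agent.H54.LP.Targets

set_option autoImplicit false

open Set Filter Topology TopologicalSpace

namespace Pool.Agent.H54.LP

open Pool.Agent.H7.LP Pool.Agent.H93.CP

section

variable {X : Type} [MetricSpace X]

theorem iso_cont_iff {Z : Type} [TopologicalSpace Z] (F : Z → (X ≃ᵢ X)) :
    Continuous F ↔ ∀ x, Continuous fun z => F z x := by
  rw [continuous_induced_rng, continuous_pi_iff]
  rfl

theorem iso_ev (x : X) : Continuous fun g : X ≃ᵢ X => g x :=
  (iso_cont_iff (fun g : X ≃ᵢ X => g)).1 continuous_id x

theorem iso_ev2 : Continuous fun p : (X ≃ᵢ X) × X => p.1 p.2 := by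
  rw [continuous_iff_continuousAt]
  rintro ⟨g, x⟩
  rw [ContinuousAt, tendsto_iff_dist_tendsto_zero]
  have h1 : Tendsto (fun p : (X ≃ᵢ X) × X => dist p.2 x + dist (p.1 x) (g x)) (𝓝 (g, x))
      (𝓝 0) := by
    have h2 : Continuous (fun p : (X ≃ᵢ X) × X => dist p.2 x + dist (p.1 x) (g x)) :=
      (continuous_snd.dist continuous_const).add
        (((iso_ev x).comp continuous_fst).dist continuous_const)
    have h3 := h2.tendsto (g, x)
    simpa using h3
  refine squeeze_zero (fun _ => dist_nonneg) (fun p => ?_) h1
  calc dist (p.1 p.2) (g x) ≤ dist (p.1 p.2) (p.1 x) + dist (p.1 x) (g x) :=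
        dist_triangle _ _ _
    _ = _ := by rw [p.1.dist_eq]

theorem iso_symm (x : X) : Continuous fun g : X ≃ᵢ X => g.symm x := by
  rw [continuous_iff_continuousAt]
  intro g
  rw [ContinuousAt, tendsto_iff_dist_tendsto_zero]
  have h1 : Tendsto (fun h : X ≃ᵢ X => dist (h (g.symm x)) x) (𝓝 g) (𝓝 0) := by
    have h2 : Continuous (fun h : X ≃ᵢ X => dist (h (g.symm x)) x) :=
      (iso_ev _).dist continuous_const
    have h3 := h2.tendsto g
    simpa using h3
  refine squeeze_zero (fun _ => dist_nonneg) (fun h => ?_) h1
  have h4 : dist (h (h.symm x)) (h (g.symm x)) = dist (h.symm x) (g.symm x) := h.dist_eq _ _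
  rw [h.apply_symm_apply] at h4
  rw [← h4, dist_comm]

theorem iso_group : IsTopologicalGroup (X ≃ᵢ X) := by
  have hm : Continuous fun p : (X ≃ᵢ X) × (X ≃ᵢ X) => p.1 * p.2 := by
    rw [iso_cont_iff]
    intro x
    exact iso_ev2.comp (continuous_fst.prodMk ((iso_ev x).comp continuous_snd))
  have hi : Continuous fun g : X ≃ᵢ X => g⁻¹ := by
    rw [iso_cont_iff]
    exact iso_symm
  exact { continuous_mul := hm, continuous_inv := hi }

/-- the embedding -/
def Phi (d : ℕ → X) (g : X ≃ᵢ X) : (ℕ → X) × (ℕ → X) :=
  (fun n => g (d n), fun n => g.symm (d n))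

theorem dist_lim {d a : ℕ → X} (hd : DenseRange d) (h : ∀ n m, dist (a n) (a m) = dist (d n) (d m))
    [CompleteSpace X] (x : X) : ∃ y, ∀ n, dist y (a n) = dist x (d n) := by
  have h0 : x ∈ closure (range d) := hd x
  rw [mem_closure_iff_seq_limit] at h0
  obtain ⟨u, hu, hux⟩ := h0
  choose k hk using hu
  have hc : CauchySeq (fun i => a (k i)) := by
    have hu' : CauchySeq u := hux.cauchySeq
    rw [Metric.cauchySeq_iff'] at hu' ⊢
    intro ε hε
    obtain ⟨N, hN⟩ := hu' ε hε
    refine ⟨N, fun n hn => ?_⟩
    rw [h, hk, hk]
    exact hN n hn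
  obtain ⟨y, hy⟩ := cauchySeq_tendsto_of_complete hc
  refine ⟨y, fun n => ?_⟩
  have h1 : Tendsto (fun i => dist (a (k i)) (a n)) atTop (𝓝 (dist y (a n))) :=
    hy.dist tendsto_const_nhds
  have h2 : Tendsto (fun i => dist (a (k i)) (a n)) atTop (𝓝 (dist x (d n))) := by
    refine (hux.dist (tendsto_const_nhds (x := d n))).congr fun i => ?_
    rw [h, hk]
  exact tendsto_nhds_unique h1 h2

/-- two functions of two points which agree on a dense set -/
theorem eq_dense {d : ℕ → X} (hd : DenseRange d) {F G : X → ℝ} (hF : Continuous F)
    (hG : Continuous G) (h : ∀ n, F (d n) = G (d n)) (x : X) : F x = G x := by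
  have := hd.equalizer hF hG (funext h)
  exact congrFun this x

theorem phi_closed {d : ℕ → X} (hd : DenseRange d) [CompleteSpace X] :
    Topology.IsClosedEmbedding (Phi d) := by
  have hcont : Continuous (Phi d) := by
    refine Continuous.prodMk ?_ ?_
    · exact continuous_pi fun n => iso_ev (d n)
    · exact continuous_pi fun n => iso_symm (d n)
  refine ⟨⟨⟨?_⟩, ?_⟩, ?_⟩
  · refine le_antisymm (continuous_iff_le_induced.1 hcont) ?_
    -- the induced topology is finer
    rw [← continuous_id_iff_le]
    let T : TopologicalSpace (X ≃ᵢ X) := TopologicalSpace.induced (Phi d) inferInstance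
    have h1 : ∀ n, @Continuous _ _ T _ (fun g : X ≃ᵢ X => g (d n)) := by
      intro n
      have h2 : @Continuous _ _ T _ (Phi d) := continuous_induced_dom
      exact (continuous_apply n).comp (continuous_fst.comp h2)
    have h2 : ∀ x, @Continuous _ _ T _ (fun g : X ≃ᵢ X => g x) := by
      intro x
      rw [@continuous_iff_continuousAt _ _ T]
      intro g
      rw [ContinuousAt, Metric.tendsto_nhds]
      intro ε hε
      obtain ⟨n, hn⟩ := hd.exists_dist_lt x (show (0 : ℝ) < ε / 3 by positivity)
      have h3 : ∀ᶠ h in @nhds _ T g, dist (h (d n)) (g (d n)) < ε / 3 := by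
        have h4 := (@continuous_iff_continuousAt _ _ T _ _).1 (h1 n) g
        exact (Metric.tendsto_nhds.1 h4) (ε / 3) (by positivity)
      refine h3.mono fun h hh => ?_
      have h5 : dist (h x) (h (d n)) = dist x (d n) := h.dist_eq _ _
      have h6 : dist (g (d n)) (g x) = dist (d n) x := g.dist_eq _ _
      rw [dist_comm (d n) x] at h6
      calc dist (h x) (g x) ≤ dist (h x) (h (d n)) + dist (h (d n)) (g (d n)) +
            dist (g (d n)) (g x) := dist_triangle4 _ _ _ _
        _ < ε := by rw [h5, h6]; linarith
    show @Continuous _ _ T (isoTop X) id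
    exact (@iso_cont_iff X _ (X ≃ᵢ X) T id).2 h2
  · intro g h hgh
    have h1 : ∀ n, g (d n) = h (d n) := fun n => congrFun (congrArg Prod.fst hgh) n
    ext x
    have h2 := eq_dense hd (F := fun x => dist (g x) (h x)) (G := fun _ => 0)
      (g.continuous.dist h.continuous) continuous_const (fun n => by rw [h1, dist_self]) x
    exact dist_eq_zero.1 h2
  · have h1 : range (Phi d) = {p : (ℕ → X) × (ℕ → X) |
        (∀ n m, dist (p.1 n) (p.1 m) = dist (d n) (d m)) ∧
        (∀ n m, dist (p.2 n) (p.2 m) = dist (d n) (d m)) ∧
        ∀ n m, dist (p.1 n) (d m) = dist (d n) (p.2 m)} := by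
      ext p
      constructor
      · rintro ⟨g, rfl⟩
        refine ⟨fun n m => g.dist_eq _ _, fun n m => g.symm.dist_eq _ _, fun n m => ?_⟩
        show dist (g (d n)) (d m) = dist (d n) (g.symm (d m))
        have := g.dist_eq (d n) (g.symm (d m))
        rw [g.apply_symm_apply] at this
        exact this
      · rintro ⟨h1, h2, h3⟩
        choose f hf using dist_lim hd h1
        choose k hk using dist_lim hd h2
        have hfd : ∀ n, f (d n) = p.1 n := fun n => by
          have := hf (d n) n
          rw [dist_self] at this
          exact dist_eq_zero.1 this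
        have hkd : ∀ n, k (d n) = p.2 n := fun n => by
          have := hk (d n) n
          rw [dist_self] at this
          exact dist_eq_zero.1 this
        have hfi : ∀ x y, dist (f x) (f y) = dist x y := by
          have hfc : ∀ x n, dist (f x) (f (d n)) = dist x (d n) := fun x n => by
            rw [hfd, hf]
          intro x y
          -- approximate y
          refine le_antisymm ?_ ?_
          · refine le_of_forall_pos_le_add fun ε hε => ?_
            obtain ⟨n, hn⟩ := hd.exists_dist_lt y (show (0 : ℝ) < ε / 2 by positivity)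
            have e1 := hfc x n
            have e2 := hfc y n
            have e3 : dist x (d n) ≤ dist x y + dist y (d n) := dist_triangle _ _ _
            have e4 : dist (f x) (f y) ≤ dist (f x) (f (d n)) + dist (f (d n)) (f y) :=
              dist_triangle _ _ _
            rw [dist_comm (f (d n))] at e4
            linarith
          · refine le_of_forall_pos_le_add fun ε hε => ?_
            obtain ⟨n, hn⟩ := hd.exists_dist_lt y (show (0 : ℝ) < ε / 2 by positivity)
            have e1 := hfc x n
            have e2 := hfc y n
            have e3 : dist x y ≤ dist x (d n) + dist (d n) y := dist_triangle _ _ _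
            have e4 : dist (f x) (f (d n)) ≤ dist (f x) (f y) + dist (f y) (f (d n)) :=
              dist_triangle _ _ _
            rw [dist_comm (d n)] at e3
            linarith
        have hki : ∀ x y, dist (k x) (k y) = dist x y := by
          have hkc : ∀ x n, dist (k x) (k (d n)) = dist x (d n) := fun x n => by
            rw [hkd, hk]
          intro x y
          refine le_antisymm ?_ ?_
          · refine le_of_forall_pos_le_add fun ε hε => ?_
            obtain ⟨n, hn⟩ := hd.exists_dist_lt y (show (0 : ℝ) < ε / 2 by positivity)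
            have e1 := hkc x n
            have e2 := hkc y n
            have e3 : dist x (d n) ≤ dist x y + dist y (d n) := dist_triangle _ _ _
            have e4 : dist (k x) (k y) ≤ dist (k x) (k (d n)) + dist (k (d n)) (k y) :=
              dist_triangle _ _ _
            rw [dist_comm (k (d n))] at e4
            linarith
          · refine le_of_forall_pos_le_add fun ε hε => ?_
            obtain ⟨n, hn⟩ := hd.exists_dist_lt y (show (0 : ℝ) < ε / 2 by positivity)
            have e1 := hkc x n
            have e2 := hkc y n
            have e3 : dist x y ≤ dist x (d n) + dist (d n) y := dist_triangle _ _ _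
            have e4 : dist (k x) (k (d n)) ≤ dist (k x) (k y) + dist (k y) (k (d n)) :=
              dist_triangle _ _ _
            rw [dist_comm (d n)] at e3
            linarith
        have hfc : Continuous f := (Isometry.of_dist_eq hfi).continuous
        have hkc : Continuous k := (Isometry.of_dist_eq hki).continuous
        have hfk : ∀ x y, dist (f x) y = dist x (k y) := by
          intro x y
          refine eq_dense hd (F := fun x => dist (f x) y) (G := fun x => dist x (k y))
            (hfc.dist continuous_const) (continuous_id.dist continuous_const) (fun n => ?_) x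
          refine eq_dense hd (F := fun y => dist (f (d n)) y) (G := fun y => dist (d n) (k y))
            (continuous_const.dist continuous_id) (continuous_const.dist hkc) (fun m => ?_) y
          show dist (f (d n)) (d m) = dist (d n) (k (d m))
          rw [hfd, hkd]
          exact h3 n m
        have e1 : ∀ y, f (k y) = y := fun y => by
          have := hfk (k y) y
          rw [dist_self] at this
          exact dist_eq_zero.1 this
        have e2 : ∀ x, k (f x) = x := fun x => by
          have := hfk x (f x)
          rw [dist_self] at this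
          exact (dist_eq_zero.1 this.symm).symm
        refine ⟨⟨⟨f, k, e2, e1⟩, Isometry.of_dist_eq hfi⟩, ?_⟩
        exact Prod.ext (funext hfd) (funext hkd)
    rw [h1]
    have h2 : {p : (ℕ → X) × (ℕ → X) |
        (∀ n m, dist (p.1 n) (p.1 m) = dist (d n) (d m)) ∧
        (∀ n m, dist (p.2 n) (p.2 m) = dist (d n) (d m)) ∧
        ∀ n m, dist (p.1 n) (d m) = dist (d n) (p.2 m)} =
        (⋂ n, ⋂ m, {p : (ℕ → X) × (ℕ → X) | dist (p.1 n) (p.1 m) = dist (d n) (d m)}) ∩
        ((⋂ n, ⋂ m, {p : (ℕ → X) × (ℕ → X) | dist (p.2 n) (p.2 m) = dist (d n) (d m)}) ∩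
        ⋂ n, ⋂ m, {p : (ℕ → X) × (ℕ → X) | dist (p.1 n) (d m) = dist (d n) (p.2 m)}) := by
      ext p
      simp
    rw [h2]
    refine (isClosed_iInter fun n => isClosed_iInter fun m => ?_).inter
      ((isClosed_iInter fun n => isClosed_iInter fun m => ?_).inter
        (isClosed_iInter fun n => isClosed_iInter fun m => ?_))
    · exact isClosed_eq (by fun_prop) (by fun_prop)
    · exact isClosed_eq (by fun_prop) (by fun_prop)
    · exact isClosed_eq (by fun_prop) (by fun_prop)

end

theorem pf_X6 : T_X6 := by
  intro X _ _ _
  rcases isEmpty_or_nonempty X with hX | hX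
  · have hs : Subsingleton (X ≃ᵢ X) := ⟨fun g h => by ext x; exact (hX.false x).elim⟩
    have hD : DiscreteTopology (X ≃ᵢ X) := inferInstance
    refine ⟨iso_group, inferInstance, fun S _ _ _ => ?_⟩
    exact Set.Subsingleton.isCompact (Set.subsingleton_of_subsingleton)
  · obtain ⟨d, hd⟩ := exists_dense_seq X
    have hcl := phi_closed (X := X) hd
    have : PolishSpace X := inferInstance
    refine ⟨iso_group, hcl.polishSpace, fun S hS hSi hK => ?_⟩
    choose K hK hKS using hK
    have h1 : IsCompact ((Set.pi univ fun n => K (d n)) ×ˢ (Set.pi univ fun n => K (d n))) :=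
      (isCompact_univ_pi fun n => hK (d n)).prod (isCompact_univ_pi fun n => hK (d n))
    have h2 := hcl.isCompact_preimage h1
    refine h2.of_isClosed_subset hS ?_
    intro g hg
    refine ⟨fun n _ => hKS (d n) g hg, fun n _ => hKS (d n) g⁻¹ (hSi g hg)⟩

end Pool.Agent.H54.LP
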