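import Pool.Agent.H54.LP.X1
import Pool.Agent.H54.LP.X6

set_option autoImplicit false

open Set Filter Topology TopologicalSpace

namespace Pool.Agent.H54.LP

open Pool.Agent.H7.LP Pool.Agent.H93.CP

section

variable {Y : Type} [MetricSpace Y]

/-- the isometries which fix the classes of the first points -/
def KH (h2 : ∀ x y z : Y, dist x y ≤ 1 → dist y z ≤ 1 → dist x z ≤ 1) (d : ℕ → Y) (k : ℕ) :
    Subgroup (Y ≃ᵢ Y) where
  carrier := {g | ∀ i < k, dist (g (d i)) (d i) ≤ 1}
  mul_mem' := by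
    intro g h hg hh i hi
    show dist (g (h (d i))) (d i) ≤ 1
    refine h2 _ (g (d i)) _ ?_ (hg i hi)
    rw [g.dist_eq]
    exact hh i hi
  one_mem' := by
    intro i _
    show dist (d i) (d i) ≤ 1
    rw [dist_self]
    exact zero_le_one
  inv_mem' := by
    intro g hg i hi
    show dist (g.symm (d i)) (d i) ≤ 1
    have := g.dist_eq (g.symm (d i)) (d i)
    rw [g.apply_symm_apply] at this
    rw [← this, dist_comm]
    exact hg i hi

/-- the isometries which fix all points of the classes of the first points -/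
def KR (d : ℕ → Y) (k : ℕ) : Subgroup (Y ≃ᵢ Y) where
  carrier := {g | ∀ i < k, ∀ y, dist y (d i) ≤ 1 → g y = y}
  mul_mem' := by
    intro g h hg hh i hi y hy
    show g (h y) = y
    rw [hh i hi y hy, hg i hi y hy]
  one_mem' := fun i _ y _ => rfl
  inv_mem' := by
    intro g hg i hi y hy
    show g.symm y = y
    rw [IsometryEquiv.symm_apply_eq]
    exact (hg i hi y hy).symm

/-- orbits of points are relatively compact along chains -/
theorem chain_cpt (S : Set (Y ≃ᵢ Y)) {a : Y} (ha : ∃ K : Set Y, IsCompact K ∧ ∀ g ∈ S, g a ∈ K)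
    {b : Y} (hab : Relation.ReflTransGen
      (fun a b : Y => ∃ r : ℝ, dist a b < r ∧ IsCompact (Metric.closedBall a r)) a b) :
    ∃ K : Set Y, IsCompact K ∧ ∀ g ∈ S, g b ∈ K := by
  induction hab with
  | refl => exact ha
  | @tail b c _ hbc ih =>
    obtain ⟨K, hK, hKS⟩ := ih
    obtain ⟨r, hr, hc⟩ := hbc
    have htb : TotallyBounded ((fun g : Y ≃ᵢ Y => g b) '' S) := by
      refine hK.totallyBounded.subset ?_
      rintro _ ⟨g, hg, rfl⟩
      exact hKS g hg
    have hε : 0 < r - dist b c := by linarith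
    obtain ⟨t, htS, htf, hcov⟩ := htb.exists_subset (Metric.dist_mem_uniformity hε)
    refine ⟨⋃ w ∈ t, Metric.closedBall w r, ?_, ?_⟩
    · refine htf.isCompact_biUnion fun w hw => ?_
      obtain ⟨g, -, rfl⟩ := htS hw
      have h1 : Metric.closedBall (g b) r = g '' Metric.closedBall b r := by
        rw [g.image_closedBall]
      show IsCompact (Metric.closedBall (g b) r)
      rw [h1]
      exact hc.image g.continuous
    · intro g hg
      have h1 := hcov ⟨g, hg, rfl⟩
      simp only [mem_iUnion] at h1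
      obtain ⟨w, hw, h2⟩ := h1
      simp only [mem_iUnion]
      refine ⟨w, hw, ?_⟩
      have h3 : dist (g b) w < r - dist b c := h2
      have h4 : dist (g c) (g b) = dist c b := g.dist_eq _ _
      rw [Metric.mem_closedBall]
      have h5 := dist_triangle (g c) (g b) w
      rw [dist_comm c b] at h4
      linarith

/-- cut and paste -/
theorem paste (h1 : ∀ x y : Y, dist x y ≤ 1 ∨ dist x y = 2) (A : Set Y)
    (hA : ∀ x y, x ∈ A → dist x y ≤ 1 → y ∈ A) (g : Y ≃ᵢ Y) (hg : ∀ x, x ∈ A → g x ∈ A)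
    (hg' : ∀ x, x ∈ A → g.symm x ∈ A) :
    ∃ c : Y ≃ᵢ Y, (∀ x ∈ A, c x = g x) ∧ (∀ x ∉ A, c x = x) ∧ ∀ x ∈ A, c.symm x = g.symm x := by
  classical
  let f : Y → Y := fun y => if y ∈ A then g y else y
  let f' : Y → Y := fun y => if y ∈ A then g.symm y else y
  have e1 : ∀ y, f' (f y) = y := by
    intro y
    by_cases hy : y ∈ A
    · simp [f, f', hy, hg y hy]
    · simp [f, f', hy]
  have e2 : ∀ y, f (f' y) = y := by
    intro y
    by_cases hy : y ∈ A
    · simp [f, f', hy, hg' y hy]
    · simp [f, f', hy]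
  have hfar : ∀ x y, x ∈ A → y ∉ A → dist x y = 2 := by
    intro x y hx hy
    rcases h1 x y with h | h
    · exact absurd (hA x y hx h) hy
    · exact h
  have hi : ∀ x y, dist (f x) (f y) = dist x y := by
    intro x y
    by_cases hx : x ∈ A
    · by_cases hy : y ∈ A
      · simp only [f, hx, hy, if_true]
        exact g.dist_eq x y
      · simp only [f, hx, hy, if_true, if_false]
        rw [hfar _ _ (hg x hx) hy, hfar _ _ hx hy]
    · by_cases hy : y ∈ A
      · simp only [f, hx, hy, if_true, if_false]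
        rw [dist_comm, hfar _ _ (hg y hy) hx, dist_comm x y, hfar _ _ hy hx]
      · simp only [f, hx, hy, if_false]
  refine ⟨⟨⟨f, f', e1, e2⟩, Isometry.of_dist_eq hi⟩, ?_, ?_, ?_⟩
  · intro x hx
    show f x = g x
    simp [f, hx]
  · intro x hx
    show f x = x
    simp [f, hx]
  · intro x hx
    show f' x = g.symm x
    simp [f', hx]

end

theorem pf_X7 : T_X7 := by
  intro Y _ _ _ h1 h2 h3 h4
  obtain ⟨hgrp, hpol, hcpt⟩ := pf_X6 Y
  rcases isEmpty_or_nonempty Y with hY | hY
  · have hs : Subsingleton (Y ≃ᵢ Y) := ⟨fun g h => by ext x; exact (hY.false x).elim⟩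
    have hD : DiscreteTopology (Y ≃ᵢ Y) := inferInstance
    exact pf_X1 (Y ≃ᵢ Y)
  obtain ⟨d, hd⟩ := exists_dense_seq Y
  have hnear : ∀ y : Y, ∃ j, dist y (d j) ≤ 1 := fun y => by
    obtain ⟨j, hj⟩ := hd.exists_dist_lt y zero_lt_one
    exact ⟨j, hj.le⟩
  have h5 : ∀ i, ∃ r : ℝ, 0 < r ∧ r ≤ 1 ∧ IsCompact (Metric.closedBall (d i) r) := by
    intro i
    obtain ⟨r, hr, hc⟩ := h3 (d i)
    refine ⟨min r 1, lt_min hr one_pos, min_le_right _ _, ?_⟩
    exact hc.of_isClosed_subset Metric.isClosed_closedBall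
      (Metric.closedBall_subset_closedBall (min_le_left _ _))
  choose ρ hρ0 hρ1 hρc using h5
  refine ⟨{ H := KH h2 d, R := KR d, piece := fun k => ⟨?_, ?_, ?_, ?_, ?_⟩, antH := ?_,
            antR := ?_, small := ?_, conj := ?_ }⟩
  · have e1 : (KH h2 d k : Set (Y ≃ᵢ Y)) =
        ⋂ i ∈ Finset.range k, {g : Y ≃ᵢ Y | dist (g (d i)) (d i) < 2} := by
      ext g
      simp only [mem_iInter, Finset.mem_range, mem_setOf_eq]
      constructor
      · intro hg i hi
        exact lt_of_le_of_lt (hg i hi) one_lt_two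
      · intro hg i hi
        rcases h1 (g (d i)) (d i) with h | h
        · exact h
        · exact absurd h (ne_of_lt (hg i hi))
    rw [e1]
    exact isOpen_biInter_finset fun i _ =>
      isOpen_lt ((iso_ev (d i)).dist continuous_const) continuous_const
  · have e1 : (KR d k : Set (Y ≃ᵢ Y)) =
        ⋂ i ∈ Finset.range k, ⋂ y : Y, ⋂ _ : dist y (d i) ≤ 1, {g : Y ≃ᵢ Y | g y = y} := by
      ext g
      simp only [mem_iInter, Finset.mem_range, mem_setOf_eq]
      exact Iff.rfl
    rw [e1]
    exact isClosed_biInter fun i _ => isClosed_iInter fun y => isClosed_iInter fun _ =>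
      isClosed_eq (iso_ev y) continuous_const
  · intro g hg i hi
    rw [hg i hi (d i) (by rw [dist_self]; exact zero_le_one), dist_self]
    exact zero_le_one
  · intro h hh r hr i hi y hy
    show h (r (h.symm y)) = y
    have e1 : dist (h.symm y) (d i) ≤ 1 := by
      refine h2 _ (h.symm (d i)) _ ?_ ((KH h2 d k).inv_mem hh i hi)
      rw [h.symm.dist_eq]
      exact hy
    rw [hr i hi _ e1, h.apply_symm_apply]
  · -- the compact set
    let A : Set Y := {y | ∃ i < k, dist y (d i) ≤ 1}
    have hA : ∀ x y, x ∈ A → dist x y ≤ 1 → y ∈ A := by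
      rintro x y ⟨i, hi, hx⟩ hxy
      exact ⟨i, hi, h2 _ x _ (by rwa [dist_comm]) hx⟩
    let C : Set (Y ≃ᵢ Y) := {g | (∀ i < k, dist (g (d i)) (d i) ≤ ρ i) ∧ ∀ y ∉ A, g y = y}
    refine ⟨C, hcpt C ?_ ?_ ?_, ?_⟩
    · have e1 : C = (⋂ i ∈ Finset.range k, {g : Y ≃ᵢ Y | dist (g (d i)) (d i) ≤ ρ i}) ∩
          ⋂ y : Y, ⋂ _ : y ∉ A, {g : Y ≃ᵢ Y | g y = y} := by
        ext g
        simp only [C, mem_setOf_eq, mem_inter_iff, mem_iInter, Finset.mem_range]
      rw [e1]
      refine (isClosed_biInter fun i _ => ?_).inter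
        (isClosed_iInter fun y => isClosed_iInter fun _ => isClosed_eq (iso_ev y) continuous_const)
      exact isClosed_le ((iso_ev (d i)).dist continuous_const) continuous_const
    · rintro g ⟨hg1, hg2⟩
      refine ⟨fun i hi => ?_, fun y hy => ?_⟩
      · show dist (g.symm (d i)) (d i) ≤ ρ i
        have := g.dist_eq (g.symm (d i)) (d i)
        rw [g.apply_symm_apply] at this
        rw [← this, dist_comm]
        exact hg1 i hi
      · show g.symm y = y
        rw [IsometryEquiv.symm_apply_eq]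
        exact (hg2 y hy).symm
    · intro y
      by_cases hy : y ∈ A
      · obtain ⟨i, hi, hy'⟩ := hy
        refine chain_cpt C ⟨Metric.closedBall (d i) (ρ i), hρc i, fun g hg => ?_⟩
          (h4 (d i) y (by rwa [dist_comm]))
        exact hg.1 i hi
      · exact ⟨{y}, isCompact_singleton, fun g hg => hg.2 y hy⟩
    · have e2 : (⋂ i ∈ Finset.range k, {g : Y ≃ᵢ Y | dist (g (d i)) (d i) < ρ i})
          ∈ 𝓝 (1 : Y ≃ᵢ Y) := by
        rw [Filter.biInter_finset_mem]
        intro i _
        refine (isOpen_lt ((iso_ev (d i)).dist continuous_const) continuous_const).mem_nhds ?_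
        show dist (d i) (d i) < ρ i
        rw [dist_self]
        exact hρ0 i
      refine Filter.mem_of_superset e2 ?_
      intro g hg
      simp only [mem_iInter, Finset.mem_range, mem_setOf_eq] at hg
      have hgH : g ∈ KH h2 d k := fun i hi => (hg i hi).le.trans (hρ1 i)
      have key : ∀ h ∈ KH h2 d k, ∀ x, x ∈ A → h x ∈ A := by
        rintro h hh x ⟨i, hi, hx⟩
        refine ⟨i, hi, h2 _ (h (d i)) _ ?_ (hh i hi)⟩
        rw [h.dist_eq]
        exact hx
      obtain ⟨c, hc1, hc2, hc3⟩ := paste h1 A hA g (key g hgH)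
        (key g⁻¹ ((KH h2 d k).inv_mem hgH))
      refine ⟨c, ⟨fun i hi => ?_, hc2⟩, ?_⟩
      · rw [hc1 (d i) ⟨i, hi, by rw [dist_self]; exact zero_le_one⟩]
        exact (hg i hi).le
      · intro i hi y hy
        show c.symm (g y) = y
        rw [hc3 (g y) (key g hgH y ⟨i, hi, hy⟩), g.symm_apply_apply]
  · exact fun k g hg i hi => hg i (by omega)
  · exact fun k g hg i hi => hg i (by omega)
  · intro U hU
    rw [nhds_induced, Filter.mem_comap] at hU
    obtain ⟨T, hT, hTU⟩ := hU
    rw [nhds_pi, Filter.mem_pi] at hT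
    obtain ⟨F, hF, t, ht, htT⟩ := hT
    choose j hj using hnear
    refine ⟨hF.toFinset.sup j + 1, fun r hr => hTU (htT fun y hy => ?_)⟩
    have e1 : j y < hF.toFinset.sup j + 1 :=
      Nat.lt_succ_of_le (Finset.le_sup (f := j) (by simpa using hy))
    show r y ∈ t y
    rw [hr (j y) e1 y (hj y)]
    exact mem_of_mem_nhds (ht y)
  · intro g k
    choose j hj using fun i => hnear (g.symm (d i))
    let l : ℕ := (Finset.range k).sup j + 1
    have hl : ∀ i < k, j i < l := fun i hi =>
      Nat.lt_succ_of_le (Finset.le_sup (f := j) (by simpa using hi))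
    refine ⟨l, fun h hh i hi => ?_, fun r hr i hi y hy => ?_⟩
    · show dist (g (h (g.symm (d i)))) (d i) ≤ 1
      have e1 : dist (g (h (g.symm (d i)))) (d i) = dist (h (g.symm (d i))) (g.symm (d i)) := by
        have := g.dist_eq (h (g.symm (d i))) (g.symm (d i))
        rwa [g.apply_symm_apply] at this
      rw [e1]
      refine h2 _ (h (d (j i))) _ ?_ (h2 _ (d (j i)) _ (hh _ (hl i hi)) ?_)
      · rw [h.dist_eq]
        exact hj i
      · rw [dist_comm]
        exact hj i
    · show g (r (g.symm y)) = y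
      have e1 : dist (g.symm y) (d (j i)) ≤ 1 := by
        refine h2 _ (g.symm (d i)) _ ?_ (hj i)
        rw [g.symm.dist_eq]
        exact hy
      rw [hr _ (hl i hi) _ e1, g.apply_symm_apply]

end Pool.Agent.H54.LP
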