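import Pool.Agent.H54.LP.Targets

set_option autoImplicit false

open Set Filter Topology TopologicalSpace

namespace Pool.Agent.H54.LP

open Pool.Agent.H7.LP Pool.Agent.H93.CP

section

variable {X : Type} [MetricSpace X]

/-- close points of compact balls -/
def stp (x y : X) : Prop := ∃ r : ℝ, dist x y < r ∧ r ≤ 1 / 2 ∧
  IsCompact (Metric.closedBall x r) ∧ IsCompact (Metric.closedBall y r)

/-- the pseudo-components -/
def eqv (x y : X) : Prop := Relation.ReflTransGen stp x y

theorem stp_symm {x y : X} (h : stp x y) : stp y x := by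
  obtain ⟨r, h1, h2, h3, h4⟩ := h
  exact ⟨r, by rwa [dist_comm], h2, h4, h3⟩

theorem eqv_symm {x y : X} (h : eqv x y) : eqv y x := by
  induction h with
  | refl => exact Relation.ReflTransGen.refl
  | tail _ hbc ih => exact Relation.ReflTransGen.head (stp_symm hbc) ih

theorem eqv_comm {x y : X} : eqv x y ↔ eqv y x := ⟨eqv_symm, eqv_symm⟩

theorem eqv_trans {x y z : X} (h : eqv x y) (h' : eqv y z) : eqv x z :=
  Relation.ReflTransGen.trans h h'

theorem eqv_refl (x : X) : eqv x x := Relation.ReflTransGen.refl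

theorem stp_iso (g : X ≃ᵢ X) {x y : X} (h : stp x y) : stp (g x) (g y) := by
  obtain ⟨r, h1, h2, h3, h4⟩ := h
  refine ⟨r, by rwa [g.dist_eq], h2, ?_, ?_⟩
  · rw [← g.image_closedBall]
    exact h3.image g.continuous
  · rw [← g.image_closedBall]
    exact h4.image g.continuous

theorem eqv_iso (g : X ≃ᵢ X) {x y : X} (h : eqv x y) : eqv (g x) (g y) :=
  Relation.ReflTransGen.lift (p := stp) g (fun _ _ h => stp_iso g h) _ _ h

theorem eqv_iso_iff (g : X ≃ᵢ X) {x y : X} : eqv (g x) (g y) ↔ eqv x y := by
  refine ⟨fun h => ?_, eqv_iso g⟩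
  have := eqv_iso g.symm h
  rwa [g.symm_apply_apply, g.symm_apply_apply] at this

theorem stp_near [LocallyCompactSpace X] (x : X) :
    ∃ δ : ℝ, 0 < δ ∧ ∀ y, dist x y < δ → eqv x y := by
  obtain ⟨r, hr, hc⟩ := Metric.exists_isCompact_closedBall x
  have hR : 0 < min r (1 / 2) := lt_min hr (by norm_num)
  have hcR : IsCompact (Metric.closedBall x (min r (1 / 2))) :=
    hc.of_isClosed_subset Metric.isClosed_closedBall
      (Metric.closedBall_subset_closedBall (min_le_left _ _))
  generalize hRe : min r (1 / 2) = R at hR hcR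
  have hR2 : R ≤ 1 / 2 := by rw [← hRe]; exact min_le_right _ _
  refine ⟨R / 4, by positivity, fun y hy => ?_⟩
  refine Relation.ReflTransGen.single ⟨R / 2, by linarith, by linarith, ?_, ?_⟩
  · exact hcR.of_isClosed_subset Metric.isClosed_closedBall
      (Metric.closedBall_subset_closedBall (by linarith))
  · refine hcR.of_isClosed_subset Metric.isClosed_closedBall
      (Metric.closedBall_subset_closedBall' ?_)
    rw [dist_comm]
    linarith

end

/-- the space with the new metric -/
def PY (X : Type) : Type := X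

open Classical in
/-- the new distance -/
noncomputable def dY {X : Type} [MetricSpace X] (x y : X) : ℝ :=
  if eqv x y then min (dist x y) 1 else 2

section

variable {X : Type} [MetricSpace X]

theorem dY_eq {x y : X} (h : eqv x y) : dY x y = min (dist x y) 1 := by
  unfold dY
  rw [if_pos h]

theorem dY_ne {x y : X} (h : ¬ eqv x y) : dY x y = 2 := by
  unfold dY
  rw [if_neg h]

theorem dY_nonneg (x y : X) : 0 ≤ dY x y := by
  by_cases h : eqv x y
  · rw [dY_eq h]
    exact le_min dist_nonneg zero_le_one
  · rw [dY_ne h]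
    norm_num

theorem dY_le_two (x y : X) : dY x y ≤ 2 := by
  by_cases h : eqv x y
  · rw [dY_eq h]
    exact (min_le_right _ _).trans (by norm_num)
  · rw [dY_ne h]

theorem dY_le_one {x y : X} : dY x y ≤ 1 ↔ eqv x y := by
  constructor
  · intro h
    by_contra h1
    rw [dY_ne h1] at h
    norm_num at h
  · intro h
    rw [dY_eq h]
    exact min_le_right _ _

theorem dY_triangle (x y z : X) : dY x z ≤ dY x y + dY y z := by
  by_cases hxz : eqv x z
  · by_cases hxy : eqv x y
    · have hyz : eqv y z := eqv_trans (eqv_symm hxy) hxz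
      rw [dY_eq hxz, dY_eq hxy, dY_eq hyz]
      have h1 := dist_triangle x y z
      have h2 : 0 ≤ dist x y := dist_nonneg
      have h3 : 0 ≤ dist y z := dist_nonneg
      rcases le_total (dist x y) 1 with h4 | h4
      · rcases le_total (dist y z) 1 with h5 | h5
        · rw [min_eq_left h4, min_eq_left h5]
          exact (min_le_left _ _).trans h1
        · rw [min_eq_right h5]
          exact (min_le_right _ _).trans (by linarith [le_min h2 zero_le_one])
      · rw [min_eq_right h4]
        exact (min_le_right _ _).trans (by linarith [le_min h3 zero_le_one])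
    · rw [dY_ne hxy]
      linarith [dY_le_two x z, dY_nonneg y z]
  · have h1 : ¬ eqv x y ∨ ¬ eqv y z := by
      by_contra h
      push Not at h
      exact hxz (eqv_trans h.1 h.2)
    rw [dY_ne hxz]
    rcases h1 with h1 | h1
    · rw [dY_ne h1]
      linarith [dY_nonneg y z]
    · rw [dY_ne h1]
      linarith [dY_nonneg x y]

noncomputable instance PY.metric : MetricSpace (PY X) where
  dist x y := dY (X := X) x y
  dist_self x := by
    show dY (X := X) x x = 0
    rw [dY_eq (eqv_refl _), dist_self]
    simp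
  dist_comm x y := by
    show dY (X := X) x y = dY (X := X) y x
    by_cases h : eqv (X := X) x y
    · rw [dY_eq h, dY_eq (eqv_symm h), dist_comm]
    · rw [dY_ne h, dY_ne (fun h' => h (eqv_symm h'))]
  dist_triangle x y z := dY_triangle (X := X) x y z
  eq_of_dist_eq_zero := by
    intro x y h
    have h' : dY (X := X) x y = 0 := h
    have h1 : eqv (X := X) x y := dY_le_one.1 (by rw [h']; exact zero_le_one)
    rw [dY_eq h1] at h'
    rcases min_choice (dist (α := X) x y) 1 with h2 | h2
    · rw [h2] at h'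
      exact @eq_of_dist_eq_zero X _ x y h'
    · rw [h2] at h'
      exact absurd h' one_ne_zero

theorem PY.dist_def (x y : X) : dist (α := PY X) x y = dY x y := rfl

theorem small_dY {x y : X} {ε : ℝ} (hε : ε ≤ 1) (h : dY x y < ε) : dist x y < ε := by
  have h1 : eqv x y := dY_le_one.1 (h.le.trans hε)
  rw [dY_eq h1] at h
  rcases min_lt_iff.1 h with h2 | h2
  · exact h2
  · linarith

/-- the identity -/
noncomputable def eY [LocallyCompactSpace X] : X ≃ₜ PY X where
  toFun x := x
  invFun x := x
  left_inv _ := rfl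
  right_inv _ := rfl
  continuous_toFun := by
    rw [Metric.continuous_iff]
    intro x ε hε
    obtain ⟨δ, hδ, h⟩ := stp_near x
    refine ⟨min δ ε, lt_min hδ hε, fun y hy => ?_⟩
    show dY y x < ε
    have h1 : eqv x y := h y (by rw [dist_comm]; exact lt_of_lt_of_le hy (min_le_left _ _))
    rw [dY_eq (eqv_symm h1)]
    exact lt_of_le_of_lt (min_le_left _ _) (lt_of_lt_of_le hy (min_le_right _ _))
  continuous_invFun := by
    rw [Metric.continuous_iff]
    intro x ε hε
    refine ⟨min ε 1, lt_min hε one_pos, fun y hy => ?_⟩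
    exact lt_of_lt_of_le (small_dY (X := X) (min_le_right _ _) hy) (min_le_left _ _)

theorem cball_Y [LocallyCompactSpace X] {x : X} {r : ℝ} (hr : r < 1)
    (h : IsCompact (Metric.closedBall x r)) :
    IsCompact (Metric.closedBall (α := PY X) x r) := by
  have h1 : IsCompact (eY '' Metric.closedBall x r) := h.image eY.continuous
  refine h1.of_isClosed_subset Metric.isClosed_closedBall ?_
  intro y hy
  refine ⟨y, ?_, rfl⟩
  have h2 : dY (X := X) y x ≤ r := hy
  have h3 : eqv (X := X) y x := dY_le_one.1 (h2.trans hr.le)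
  rw [dY_eq h3] at h2
  rw [Metric.mem_closedBall]
  rcases min_le_iff.1 h2 with h4 | h4
  · exact h4
  · linarith

theorem ball_Y [LocallyCompactSpace X] (x : X) :
    ∃ r : ℝ, 0 < r ∧ IsCompact (Metric.closedBall (α := PY X) x r) := by
  obtain ⟨r, hr, hc⟩ := Metric.exists_isCompact_closedBall x
  refine ⟨min r (1 / 2), lt_min hr (by norm_num), cball_Y ?_ ?_⟩
  · exact lt_of_le_of_lt (min_le_right _ _) (by norm_num)
  · exact hc.of_isClosed_subset Metric.isClosed_closedBall
      (Metric.closedBall_subset_closedBall (min_le_left _ _))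

theorem step_Y [LocallyCompactSpace X] {a b : X} (h : stp a b) :
    ∃ r : ℝ, dist (α := PY X) a b < r ∧ IsCompact (Metric.closedBall (α := PY X) a r) := by
  obtain ⟨r, h2, h3, h4, h5⟩ := h
  refine ⟨r, ?_, cball_Y (by linarith) h4⟩
  show dY a b < r
  rw [dY_eq (Relation.ReflTransGen.single ⟨r, h2, h3, h4, h5⟩)]
  exact lt_of_le_of_lt (min_le_left _ _) h2

theorem chain_Y [LocallyCompactSpace X] {x y : X} (h : eqv x y) : Relation.ReflTransGen
    (fun a b : PY X => ∃ r : ℝ, dist a b < r ∧ IsCompact (Metric.closedBall a r)) x y := by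
  induction h with
  | refl => exact Relation.ReflTransGen.refl
  | tail _ hbc ih => exact Relation.ReflTransGen.tail ih (step_Y hbc)

theorem conv_Y [CompleteSpace X] [LocallyCompactSpace X] (u : ℕ → X)
    (hu : ∀ ε : ℝ, 0 < ε → ∃ N, ∀ n ≥ N, dY (u n) (u N) < ε) :
    ∃ x : X, Tendsto (fun n => eY (u n)) atTop (𝓝 (eY x)) := by
  have h1 : CauchySeq u := by
    rw [Metric.cauchySeq_iff']
    intro ε hε
    obtain ⟨N, hN⟩ := hu (min ε 1) (lt_min hε one_pos)
    exact ⟨N, fun n hn => lt_of_lt_of_le (small_dY (min_le_right _ _) (hN n hn))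
      (min_le_left _ _)⟩
  obtain ⟨x, hx⟩ := cauchySeq_tendsto_of_complete h1
  exact ⟨x, (eY.continuous.tendsto x).comp hx⟩

end

theorem pf_X8 : T_X8 := by
  intro X _ _ _ _
  have hcomp : CompleteSpace (PY X) := by
    refine Metric.complete_of_cauchySeq_tendsto fun u hu => ?_
    rw [Metric.cauchySeq_iff'] at hu
    obtain ⟨x, hx⟩ := conv_Y (X := X) u hu
    exact ⟨eY x, hx⟩
  have hsep : SeparableSpace (PY X) :=
    (eY (X := X)).surjective.denseRange.separableSpace eY.continuous
  refine ⟨PY X, PY.metric, hcomp, hsep, eY, ?_, ?_, ?_, ?_, ?_⟩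
  · intro x y
    by_cases h : eqv (X := X) x y
    · exact Or.inl (dY_le_one.2 h)
    · exact Or.inr (dY_ne h)
  · intro x y z hxy hyz
    exact dY_le_one.2 (eqv_trans (dY_le_one.1 hxy) (dY_le_one.1 hyz))
  · intro x
    exact ball_Y (X := X) x
  · intro x y hxy
    exact chain_Y (X := X) (dY_le_one.1 hxy)
  · intro g x y
    show dY (g x) (g y) = dY x y
    by_cases h : eqv x y
    · rw [dY_eq h, dY_eq (eqv_iso g h), g.dist_eq]
    · rw [dY_ne h, dY_ne (fun h' => h ((eqv_iso_iff g).1 h'))]

end Pool.Agent.H54.LP
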