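import Pool.Agent.H54.LP.X7
import Pool.Agent.H54.LP.X8

set_option autoImplicit false

open Set Filter Topology TopologicalSpace

namespace Pool.Agent.H54.LP

open Pool.Agent.H7.LP Pool.Agent.H93.CP

section

variable {X Y : Type} [MetricSpace X] [MetricSpace Y]

/-- transport of isometries -/
def trI (e : X ≃ₜ Y)
    (he : ∀ (g : X ≃ᵢ X) (x y : X), dist (e (g x)) (e (g y)) = dist (e x) (e y)) :
    (X ≃ᵢ X) →* (Y ≃ᵢ Y) where
  toFun g := ⟨(e.symm.toEquiv.trans g.toEquiv).trans e.toEquiv, Isometry.of_dist_eq (by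
    intro x y
    show dist (e (g (e.symm x))) (e (g (e.symm y))) = dist x y
    rw [he, e.apply_symm_apply, e.apply_symm_apply])⟩
  map_one' := by
    ext y
    show e (e.symm y) = y
    rw [e.apply_symm_apply]
  map_mul' g h := by
    ext y
    show e (g (h (e.symm y))) = e (g (e.symm (e (h (e.symm y)))))
    rw [e.symm_apply_apply]

theorem trI_apply (e : X ≃ₜ Y)
    (he : ∀ (g : X ≃ᵢ X) (x y : X), dist (e (g x)) (e (g y)) = dist (e x) (e y))
    (g : X ≃ᵢ X) (y : Y) : trI e he g y = e (g (e.symm y)) := rfl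

/-- transport of functions -/
def trF (e : X ≃ₜ Y) : (X → X) ≃ₜ (Y → Y) where
  toFun f y := e (f (e.symm y))
  invFun f x := e.symm (f (e x))
  left_inv f := by
    funext x
    simp
  right_inv f := by
    funext x
    simp
  continuous_toFun := continuous_pi fun y => e.continuous.comp (continuous_apply _)
  continuous_invFun := continuous_pi fun y => e.symm.continuous.comp (continuous_apply _)

theorem trI_closed (e : X ≃ₜ Y)
    (he : ∀ (g : X ≃ᵢ X) (x y : X), dist (e (g x)) (e (g y)) = dist (e x) (e y)) :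
    Topology.IsClosedEmbedding (trI e he) := by
  refine ⟨⟨?_, ?_⟩, ?_⟩
  · have h1 : Topology.IsInducing (fun g : Y ≃ᵢ Y => (g : Y → Y)) := ⟨rfl⟩
    have h2 : Topology.IsInducing (fun g : X ≃ᵢ X => (g : X → X)) := ⟨rfl⟩
    have h3 : Topology.IsInducing ((trF e) ∘ (fun g : X ≃ᵢ X => (g : X → X))) :=
      (trF e).isInducing.comp h2
    exact (h1.of_comp_iff).1 h3
  · intro g h hgh
    ext x
    have h1 : trI e he g (e x) = trI e he h (e x) := by rw [hgh]
    rw [trI_apply, trI_apply, e.symm_apply_apply] at h1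
    exact e.injective h1
  · have h1 : range (trI e he) = ⋂ x : X, ⋂ y : X,
        {γ : Y ≃ᵢ Y | dist (e.symm (γ (e x))) (e.symm (γ (e y))) = dist x y} := by
      ext γ
      simp only [mem_iInter]
      constructor
      · rintro ⟨g, rfl⟩ x y
        show dist (e.symm (trI e he g (e x))) (e.symm (trI e he g (e y))) = dist x y
        rw [trI_apply, trI_apply, e.symm_apply_apply, e.symm_apply_apply, e.symm_apply_apply,
          e.symm_apply_apply, g.dist_eq]
      · intro h
        refine ⟨⟨(e.toEquiv.trans γ.toEquiv).trans e.symm.toEquiv, Isometry.of_dist_eq h⟩, ?_⟩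
        ext y
        show e (e.symm (γ (e (e.symm y)))) = γ y
        rw [e.apply_symm_apply, e.apply_symm_apply]
    rw [h1]
    refine isClosed_iInter fun x => isClosed_iInter fun y => ?_
    exact isClosed_eq ((e.symm.continuous.comp (iso_ev (e x))).dist
      (e.symm.continuous.comp (iso_ev (e y)))) continuous_const

end

theorem pf_X9 : T_X9 := by
  intro X _ _ _ _
  obtain ⟨Y, i1, i2, i3, e, h1, h2, h3, h4, h5⟩ := pf_X8 X
  obtain ⟨hgrp, hpol, -⟩ := pf_X6 Y
  exact ⟨Y ≃ᵢ Y, inferInstance, inferInstance, hgrp, hpol, trI e h5,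
    pf_X7 Y h1 h2 h3 h4, trI_closed e h5⟩

end Pool.Agent.H54.LP
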